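import Pool.Agent.K1H47.CC.Stm3

/-!
# The Galois closure and an element which fixes no root
-/

set_option autoImplicit false

namespace Pool.Agent.K1H39.CC

open Polynomial NumberField

/-- Jordan: a transitive action of a finite group on at least two points has an element without fixed points. -/
theorem jordan (G X : Type) [Group G] [Fintype G] [Fintype X] [MulAction G X]
    (ht : ∀ x y : X, ∃ g : G, g • x = y) (h2 : 2 ≤ Fintype.card X) :
    ∃ g : G, ∀ x : X, g • x ≠ x := by
  classical
  by_contra hcon
  push Not at hcon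
  have h := MulAction.sum_card_fixedBy_eq_card_orbits_mul_card_group G X
  have hsub : Subsingleton (Quotient (MulAction.orbitRel G X)) := by
    refine ⟨fun a b => ?_⟩
    induction a using Quotient.inductionOn with
    | h a =>
      induction b using Quotient.inductionOn with
      | h b =>
        refine Quotient.sound ?_
        obtain ⟨g, hg⟩ := ht b a
        exact ⟨g, hg⟩
  have h1 : Fintype.card (Quotient (MulAction.orbitRel G X)) ≤ 1 :=
    Fintype.card_le_one_iff_subsingleton.2 hsub
  have h3 : ∀ g : G, 1 ≤ Fintype.card (MulAction.fixedBy X g) := by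
    intro g
    obtain ⟨x, hx⟩ := hcon g
    exact Fintype.card_pos_iff.2 ⟨⟨x, hx⟩⟩
  have h4 : 2 ≤ Fintype.card (MulAction.fixedBy X (1 : G)) := by
    refine h2.trans (le_of_eq ?_)
    refine (Fintype.card_congr ((Equiv.Set.univ X).symm.trans (Equiv.setCongr ?_)))
    ext x
    simp
  have h5 : Fintype.card G < ∑ g : G, Fintype.card (MulAction.fixedBy X g) := by
    have h6 : ∑ _g : G, 1 < ∑ g : G, Fintype.card (MulAction.fixedBy X g) :=
      Finset.sum_lt_sum (fun g _ => h3 g) ⟨1, Finset.mem_univ _, by omega⟩
    simpa using h6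
  rw [h] at h5
  have h7 := Nat.mul_le_mul_right (Fintype.card G) h1
  omega

theorem t_GAL : Pool.Agent.K1H47.CC.S_GAL := by
  intro K _ _ f hf hirr hdeg
  classical
  let SF := f.SplittingField
  let Ω := AlgebraicClosure SF
  have : CharZero SF := charZero_of_injective_algebraMap (algebraMap K SF).injective
  have : FiniteDimensional K SF := inferInstance
  have : IsScalarTower ℚ K SF := inferInstance
  have : FiniteDimensional ℚ SF := FiniteDimensional.trans ℚ K SF
  have : CharZero Ω := charZero_of_injective_algebraMap (algebraMap SF Ω).injective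
  have : IsScalarTower ℚ SF Ω := inferInstance
  have : Algebra.IsAlgebraic ℚ Ω := Algebra.IsAlgebraic.trans ℚ SF Ω
  have : IsAlgClosure ℚ Ω := ⟨inferInstance, inferInstance⟩
  have : Normal ℚ Ω := inferInstance
  let L := IntermediateField.normalClosure ℚ SF Ω
  have : FiniteDimensional ℚ L := inferInstance
  have : NumberField L := ⟨⟩
  have : Normal ℚ L := normalClosure.normal (F := ℚ) (K := SF) (L := Ω)
  have : IsGalois ℚ L := ⟨⟩
  let ι : K →+* L := (algebraMap SF L).comp (algebraMap K SF)
  letI : Algebra K L := ι.toAlgebra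
  have : IsScalarTower ℚ K L := inferInstance
  have : IsGalois K L := IsGalois.tower_top_of_isGalois ℚ K L
  have : FiniteDimensional K L := FiniteDimensional.right ℚ K L
  have hspl : (f.map ι).Splits := by
    have h1 : (f.map (algebraMap K SF)).Splits := SplittingField.splits f
    have h2 := h1.map (algebraMap SF L)
    rwa [Polynomial.map_map] at h2
  have hfin : Fintype (L ≃ₐ[K] L) := Fintype.ofFinite _
  have hmap : algebraMap K L = ι := rfl
  have hsep : f.Separable := hirr.separable
  have hcard : Fintype.card (f.rootSet L) = f.natDegree :=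
    Polynomial.card_rootSet_eq_natDegree hsep (by rw [hmap]; exact hspl)
  have hmem : ∀ x : L, x ∈ f.rootSet L ↔ aeval x f = 0 := fun x => by
    rw [mem_rootSet]
    exact ⟨fun h => h.2, fun h => ⟨hf.ne_zero, h⟩⟩
  letI act : MulAction (L ≃ₐ[K] L) (f.rootSet L) :=
    { smul := fun g x => ⟨g x.1, (hmem _).2 (by
        have h1 := aeval_algHom_apply g.toAlgHom x.1 f
        rw [(hmem _).1 x.2, map_zero] at h1
        exact h1)⟩
      one_smul := fun x => rfl
      mul_smul := fun g h x => rfl }
  have hact : ∀ (g : L ≃ₐ[K] L) (x : f.rootSet L), ((g • x : f.rootSet L) : L) = g x.1 := fun g x => rfl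
  obtain ⟨g, hg⟩ := jordan (L ≃ₐ[K] L) (f.rootSet L) (fun x y => by
    have h1 : minpoly K x.1 = f := (minpoly.eq_of_irreducible_of_monic hirr ((hmem _).1 x.2) hf).symm
    obtain ⟨σ, hσ⟩ := minpoly.exists_algEquiv_of_root' (K := K) (x := y.1) (y := x.1)
      (Algebra.IsAlgebraic.isAlgebraic x.1) (by rw [h1]; exact (hmem _).1 y.2)
    exact ⟨σ, Subtype.ext hσ⟩) (by rw [hcard]; exact hdeg)
  refine ⟨L, inferInstance, inferInstance, inferInstance, ι, g.restrictScalars ℚ, fun x => ?_, hspl,
    fun α hα => ?_⟩
  · exact g.commutes x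
  · have h1 : aeval α f = 0 := by
      rw [IsRoot.def, eval_map] at hα
      exact hα
    intro h2
    exact hg ⟨α, (hmem _).2 h1⟩ (Subtype.ext h2)

end Pool.Agent.K1H39.CC
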